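import Mathlib

set_option autoImplicit false

namespace Pool.Agent.Results.MP_b7e006_co.Counter

/-- defensive alliance: nonempty, and each member has at least as many vertices of its closed
neighbourhood inside as neighbours outside -/
def Alliance {V : Type} [Fintype V] [DecidableEq V] (G : SimpleGraph V) [DecidableRel G.Adj]
    (D : Finset V) : Prop :=
  D.Nonempty ∧ ∀ v ∈ D, (G.neighborFinset v \ D).card ≤ (insert v (G.neighborFinset v) ∩ D).card

/-- locally minimal defensive alliance -/
def LocMin {V : Type} [Fintype V] [DecidableEq V] (G : SimpleGraph V) [DecidableRel G.Adj]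
    (D : Finset V) : Prop :=
  Alliance G D ∧ ∀ v ∈ D, ¬ Alliance G (D.erase v)

/-- `K₇` on `1..7` together with the vertex `0` joined to `6` and `7` -/
def G : SimpleGraph (Fin 8) := SimpleGraph.fromRel fun u v => (1 ≤ u.1 ∧ 1 ≤ v.1) ∨ 6 ≤ u.1

instance : DecidableRel G.Adj := fun u v => by unfold G; infer_instance
instance (D : Finset (Fin 8)) : Decidable (Alliance G D) := by unfold Alliance; infer_instance
instance (D : Finset (Fin 8)) : Decidable (LocMin G D) := by unfold LocMin; infer_instance

theorem result : ∃ (n : ℕ) (G : SimpleGraph (Fin n)) (_ : DecidableRel G.Adj) (v : Fin n),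
    (∀ u, 2 ≤ G.degree u) ∧ ∀ D, LocMin G D → v ∉ D :=
  ⟨8, G, inferInstance, 0, by decide +kernel, by decide +kernel⟩

end Pool.Agent.Results.MP_b7e006_co.Counter
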